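import Pool.Agent.helper13.RF.Spec1
set_option autoImplicit false
open NumberField
open scoped nonZeroDivisors
namespace Pool.Agent.RF

theorem DSC_ext {N P Q : Type} [Field N] [Field P] [Algebra N P] [CommRing Q] (f : Polynomial N) (e : AdjoinRoot f ≃ₐ[N] P)
    (a b : P →+* Q) (h1 : ∀ n, a (algebraMap N P n) = b (algebraMap N P n))
    (h2 : a (e (AdjoinRoot.root f)) = b (e (AdjoinRoot.root f))) (x : P) : a x = b x := by
  have key : (a.comp (e : AdjoinRoot f →+* P)).comp (AdjoinRoot.mk f) = (b.comp (e : AdjoinRoot f →+* P)).comp (AdjoinRoot.mk f) := by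
    apply Polynomial.ringHom_ext
    · intro n
      have h3 : e (AdjoinRoot.mk f (Polynomial.C n)) = algebraMap N P n := by
        rw [AdjoinRoot.mk_C, ← AdjoinRoot.algebraMap_eq, AlgEquiv.commutes]
      show a (e (AdjoinRoot.mk f (Polynomial.C n))) = b (e (AdjoinRoot.mk f (Polynomial.C n)))
      rw [h3]; exact h1 n
    · show a (e (AdjoinRoot.mk f Polynomial.X)) = b (e (AdjoinRoot.mk f Polynomial.X))
      rw [AdjoinRoot.mk_X]; exact h2
  obtain ⟨y, rfl⟩ := e.surjective x
  obtain ⟨p, rfl⟩ := AdjoinRoot.mk_surjective y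
  exact RingHom.congr_fun key p

/-- powers of `τ` on `ζ` -/
theorem DSC_pw {K N : Type} [Field K] [Field N] [Algebra K N] (ζ : N) (τ : N ≃ₐ[K] N) (hτ : τ ζ = ζ ^ 2) (k : ℕ) :
    (τ ^ k) ζ = ζ ^ (2 ^ k) := by
  induction k with
  | zero => simp
  | succ k ih => rw [pow_succ', AlgEquiv.mul_apply, ih, map_pow, hτ, ← pow_mul, pow_succ']

/-- `N / K` is Galois with group generated by `τ` -/
theorem DSC_A (K N : Type) [Field K] [Field N] [CharZero K] [Algebra K N] [FiniteDimensional K N] (ζ : N)
    (τ : N ≃ₐ[K] N) (hζ : IsPrimitiveRoot ζ 5) (hτ : τ ζ = ζ ^ 2) (h4 : Module.finrank K N = 4) :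
    τ ^ 4 = 1 ∧ ∀ x : N, τ x = x → x ∈ Set.range (algebraMap K N) := by
  have hdec : ∀ i j : Fin 4, (2 ^ (i : ℕ)) ≡ 2 ^ (j : ℕ) [MOD 5] → i = j := by decide
  have hdec2 : ∀ i : Fin 4, (2 ^ 4) ≡ 2 ^ (i : ℕ) [MOD 5] → i = 0 := by decide
  have hinj : Function.Injective (fun i : Fin 4 => τ ^ (i : ℕ)) := by
    intro i j hij
    have h1 : (τ ^ (i : ℕ)) ζ = (τ ^ (j : ℕ)) ζ := congrArg (fun t : N ≃ₐ[K] N => t ζ) hij
    rw [DSC_pw ζ τ hτ, DSC_pw ζ τ hτ, (hζ.isOfFinOrder (by norm_num)).pow_eq_pow_iff_modEq, ← hζ.eq_orderOf] at h1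
    exact hdec i j h1
  have : Finite (N ≃ₐ[K] N) := inferInstance
  have hle : Nat.card (N ≃ₐ[K] N) ≤ 4 := by
    rw [Nat.card_eq_fintype_card, ← h4]; exact AlgEquiv.card_le
  have hge : 4 ≤ Nat.card (N ≃ₐ[K] N) := by
    have := Nat.card_le_card_of_injective _ hinj
    rwa [Nat.card_eq_fintype_card, Fintype.card_fin] at this
  have hcard : Nat.card (N ≃ₐ[K] N) = 4 := le_antisymm hle hge
  have hG : IsGalois K N := IsGalois.of_card_aut_eq_finrank K N (hcard.trans h4.symm)
  have hbij : Function.Bijective (fun i : Fin 4 => τ ^ (i : ℕ)) := by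
    rw [Nat.bijective_iff_injective_and_card]
    exact ⟨hinj, by rw [hcard, Nat.card_eq_fintype_card, Fintype.card_fin]⟩
  refine ⟨?_, ?_⟩
  · obtain ⟨i, hi⟩ := hbij.2 (τ ^ 4)
    have hi' : τ ^ (i : ℕ) = τ ^ 4 := hi
    have h1 : (τ ^ 4) ζ = (τ ^ (i : ℕ)) ζ := by rw [hi']
    rw [DSC_pw ζ τ hτ, DSC_pw ζ τ hτ, (hζ.isOfFinOrder (by norm_num)).pow_eq_pow_iff_modEq, ← hζ.eq_orderOf] at h1
    have := hdec2 i h1
    subst this
    rw [← hi']; simp
  · intro x hx
    rw [IsGalois.mem_range_algebraMap_iff_fixed]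
    intro f
    obtain ⟨i, hi⟩ := hbij.2 f
    have hi' : τ ^ (i : ℕ) = f := hi
    rw [← hi']
    generalize (i : ℕ) = k
    induction k with
    | zero => simp
    | succ k ih => rw [pow_succ', AlgEquiv.mul_apply, ih, hx]

theorem DSC_core (K N P : Type) [Field K] [Field N] [Field P] [CharZero K] [Algebra K N] [Algebra K P] [Algebra N P] [IsScalarTower K N P]
    [FiniteDimensional K P] (ζ β γ : N) (τ : N ≃ₐ[K] N) (α : P) (f : Polynomial N) (hf : f = Polynomial.X ^ 5 - Polynomial.C β)
    (e : AdjoinRoot f ≃ₐ[N] P) (he : e (AdjoinRoot.root f) = α)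
    (hζ : IsPrimitiveRoot ζ 5) (hτ : τ ζ = ζ ^ 2) (h4 : Module.finrank K N = 4) (hα : α ^ 5 = algebraMap N P β)
    (h0 : β ≠ 0) (hβ : τ β = β ^ 2 * γ ^ 5) (h5 : Module.finrank N P = 5) :
    ∃ L : IntermediateField K P, IsGalois K L ∧ Module.finrank K L = 5 := by
  have hKN : FiniteDimensional K N := FiniteDimensional.left K N P
  have hNP : FiniteDimensional N P := FiniteDimensional.right K N P
  obtain ⟨hτ4, hfixτ⟩ := DSC_A K N ζ τ hζ hτ h4
  have hz5 : ζ ^ 5 = 1 := hζ.pow_eq_one
  have hα0 : α ≠ 0 := by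
    intro h
    rw [h, zero_pow (by norm_num)] at hα
    exact h0 ((map_eq_zero (algebraMap N P)).1 hα.symm)
  have hes : e.symm α = AdjoinRoot.root f := by rw [← he, AlgEquiv.symm_apply_apply]
  -- the automorphism `g`
  have hg0 : f.eval₂ (algebraMap N P) (algebraMap N P ζ * α) = 0 := by
    rw [hf, Polynomial.eval₂_sub, Polynomial.eval₂_pow, Polynomial.eval₂_X, Polynomial.eval₂_C, mul_pow, ← map_pow, hz5, map_one,
      one_mul, hα, sub_self]
  obtain ⟨g, hg⟩ : ∃ g : P ≃ₐ[N] P, g α = algebraMap N P ζ * α := by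
    let g0 : AdjoinRoot f →+* P := AdjoinRoot.lift (algebraMap N P) (algebraMap N P ζ * α) hg0
    let g1 : P →ₐ[N] P :=
      { (g0.comp (e.symm : P →+* AdjoinRoot f)) with
        commutes' := fun n => by
          show g0 (e.symm (algebraMap N P n)) = algebraMap N P n
          rw [AlgEquiv.commutes, AdjoinRoot.algebraMap_eq]
          exact AdjoinRoot.lift_of hg0 }
    refine ⟨AlgEquiv.ofBijective g1 (Algebra.IsAlgebraic.algHom_bijective g1), ?_⟩
    show g0 (e.symm α) = _
    rw [hes]
    exact AdjoinRoot.lift_root hg0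
  -- the automorphism `T`
  have hT0 : f.eval₂ ((algebraMap N P).comp (τ : N →+* N)) (algebraMap N P γ * α ^ 2) = 0 := by
    rw [hf, Polynomial.eval₂_sub, Polynomial.eval₂_pow, Polynomial.eval₂_X, Polynomial.eval₂_C]
    show (algebraMap N P γ * α ^ 2) ^ 5 - algebraMap N P (τ β) = 0
    rw [hβ, map_mul, map_pow, map_pow, ← hα]; ring
  obtain ⟨T, hTN, hTα⟩ : ∃ T : P ≃ₐ[K] P, (∀ n, T (algebraMap N P n) = algebraMap N P (τ n)) ∧ T α = algebraMap N P γ * α ^ 2 := by
    let T0 : AdjoinRoot f →+* P := AdjoinRoot.lift ((algebraMap N P).comp (τ : N →+* N)) (algebraMap N P γ * α ^ 2) hT0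
    have hT1 : ∀ n, T0 (e.symm (algebraMap N P n)) = algebraMap N P (τ n) := by
      intro n
      rw [AlgEquiv.commutes, AdjoinRoot.algebraMap_eq]
      exact AdjoinRoot.lift_of hT0
    let T1 : P →ₐ[K] P :=
      { (T0.comp (e.symm : P →+* AdjoinRoot f)) with
        commutes' := fun k => by
          show T0 (e.symm (algebraMap K P k)) = algebraMap K P k
          rw [IsScalarTower.algebraMap_apply K N P, hT1, AlgEquiv.commutes] }
    refine ⟨AlgEquiv.ofBijective T1 (Algebra.IsAlgebraic.algHom_bijective T1), ?_, ?_⟩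
    · intro n; exact hT1 n
    · show T0 (e.symm α) = _
      rw [hes]
      exact AdjoinRoot.lift_root hT0
  -- they commute
  have hcom : ∀ x, T (g x) = g (T x) := by
    intro x
    have h1 := DSC_ext f e ((T : P →+* P).comp (g : P →+* P)) ((g : P →+* P).comp (T : P →+* P)) (by
      intro n
      show T (g (algebraMap N P n)) = g (T (algebraMap N P n))
      rw [AlgEquiv.commutes, hTN, AlgEquiv.commutes]) (by
      show T (g (e (AdjoinRoot.root f))) = g (T (e (AdjoinRoot.root f)))
      rw [he, hg, map_mul, hTN, hTα, hτ, map_mul, AlgEquiv.commutes, map_pow g, hg, map_pow]; ring) x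
    exact h1
  -- order of `g`
  have hgk : ∀ k : ℕ, (g ^ k) α = algebraMap N P ζ ^ k * α := by
    intro k
    induction k with
    | zero => simp
    | succ k ih => rw [pow_succ', AlgEquiv.mul_apply, ih, map_mul, map_pow, AlgEquiv.commutes, hg, pow_succ]; ring
  have hg5 : g ^ 5 = 1 := by
    ext x
    refine DSC_ext f e ((g ^ 5 : P ≃ₐ[N] P) : P →+* P) (RingHom.id P) ?_ ?_ x
    · intro n
      show (g ^ 5) (algebraMap N P n) = algebraMap N P n
      rw [AlgEquiv.commutes]
    · show (g ^ 5) (e (AdjoinRoot.root f)) = e (AdjoinRoot.root f)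
      rw [he, hgk, ← map_pow, hz5, map_one, one_mul]
  have hg1 : g ≠ 1 := by
    intro h
    have h1 : algebraMap N P ζ * α = α := by rw [← hg, h]; rfl
    have h2 : algebraMap N P ζ = 1 := mul_right_cancel₀ hα0 (h1.trans (one_mul α).symm)
    have h3 : ζ = 1 := (algebraMap N P).injective (h2.trans (map_one _).symm)
    exact hζ.ne_one (by norm_num) h3
  have hfixg : ∀ x : P, g x = x → x ∈ Set.range (algebraMap N P) := by
    intro x hx
    have hprime : Fact (Nat.Prime 5) := ⟨by norm_num⟩
    have ho : orderOf g = 5 := orderOf_eq_prime hg5 hg1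
    have h1 : Module.finrank (IntermediateField.fixedField (Subgroup.zpowers g)) P = 5 := by
      rw [IntermediateField.finrank_fixedField_eq_card, Nat.card_zpowers, ho]
    have h2 := Module.finrank_mul_finrank N (IntermediateField.fixedField (Subgroup.zpowers g)) P
    rw [h1, h5] at h2
    have h3 : Module.finrank N (IntermediateField.fixedField (Subgroup.zpowers g)) = 1 := by omega
    have h4 := IntermediateField.finrank_eq_one_iff.1 h3
    have h5 : x ∈ IntermediateField.fixedField (Subgroup.zpowers g) := by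
      rw [IntermediateField.mem_fixedField_iff]
      intro s hs
      obtain ⟨k, rfl⟩ := (Subgroup.mem_zpowers_iff.1 hs)
      have : g ∈ MulAction.stabilizer (P ≃ₐ[N] P) x := hx
      exact Subgroup.zpow_mem _ this k
    rw [h4, IntermediateField.mem_bot] at h5
    exact h5
  -- `P / K` is Galois
  let gK : P ≃ₐ[K] P := g.restrictScalars K
  let S : Subgroup (P ≃ₐ[K] P) := Subgroup.closure {gK, T}
  have hSfix : IntermediateField.fixedField S = ⊥ := by
    rw [eq_bot_iff]
    intro x hx
    rw [IntermediateField.mem_fixedField_iff] at hx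
    have hgx : g x = x := hx gK (Subgroup.subset_closure (by simp))
    have hTx : T x = x := hx T (Subgroup.subset_closure (by simp))
    obtain ⟨n, rfl⟩ := hfixg x hgx
    rw [hTN] at hTx
    obtain ⟨k, rfl⟩ := hfixτ n ((algebraMap N P).injective hTx)
    rw [IntermediateField.mem_bot]
    exact ⟨k, by rw [IsScalarTower.algebraMap_apply K N P]⟩
  have hG : IsGalois K P := by
    apply IsGalois.of_fixedField_eq_bot
    rw [eq_bot_iff, ← hSfix]
    intro x hx
    rw [IntermediateField.mem_fixedField_iff] at hx ⊢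
    intro s _
    exact hx s (Subgroup.mem_top s)
  have hStop : S = ⊤ := by
    rw [← IntermediateField.fixingSubgroup_fixedField S, hSfix, IntermediateField.fixingSubgroup_bot]
  -- `T ^ 5` is central
  have hcent : T ^ 5 ∈ Subgroup.center (P ≃ₐ[K] P) := by
    have h1 : S ≤ Subgroup.centralizer {T ^ 5} := by
      rw [Subgroup.closure_le]
      rintro s (rfl | rfl)
      · show gK ∈ Subgroup.centralizer {T ^ 5}
        rw [Subgroup.mem_centralizer_iff]
        rintro t rfl
        have h2 : Commute T gK := by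
          show T * gK = gK * T
          ext x
          exact hcom x
        exact h2.pow_left 5
      · show s ∈ Subgroup.centralizer {s ^ 5}
        rw [Subgroup.mem_centralizer_iff]
        rintro t rfl
        exact (Commute.refl s).pow_left 5
    rw [Subgroup.mem_center_iff]
    intro s
    have h2 : s ∈ Subgroup.centralizer {T ^ 5} := h1 (by rw [hStop]; exact Subgroup.mem_top s)
    rw [Subgroup.mem_centralizer_iff] at h2
    exact (h2 (T ^ 5) rfl).symm
  let H : Subgroup (P ≃ₐ[K] P) := Subgroup.zpowers (T ^ 5)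
  have hHn : H.Normal := by
    constructor
    intro n hn s
    have h1 : n ∈ Subgroup.center (P ≃ₐ[K] P) := (Subgroup.zpowers_le.2 hcent) hn
    rw [Subgroup.mem_center_iff] at h1
    rw [h1 s, mul_assoc, mul_inv_cancel, mul_one]
    exact hn
  -- order of `T ^ 5`
  have hTNk : ∀ (k : ℕ) (n : N), (T ^ k) (algebraMap N P n) = algebraMap N P ((τ ^ k) n) := by
    intro k n
    induction k with
    | zero => simp
    | succ k ih => rw [pow_succ', AlgEquiv.mul_apply, ih, hTN, pow_succ' τ, AlgEquiv.mul_apply]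
  have hT20 : (T ^ 4) ^ 5 = 1 := by
    have hGN : IsGalois N P := IsGalois.tower_top_of_isGalois K N P
    let T4 : P ≃ₐ[N] P := AlgEquiv.ofRingEquiv (f := (T ^ 4 : P ≃ₐ[K] P).toRingEquiv) (by
      intro n
      show (T ^ 4) (algebraMap N P n) = algebraMap N P n
      rw [hTNk, hτ4]; rfl)
    have h1 : T4 ^ 5 = 1 := by
      have h2 := pow_card_eq_one' (x := T4)
      rwa [IsGalois.card_aut_eq_finrank, h5] at h2
    have h3 : ∀ (k : ℕ) (x : P), (T4 ^ k) x = ((T ^ 4) ^ k) x := by
      intro k x
      induction k generalizing x with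
      | zero => simp
      | succ k ih => rw [pow_succ, AlgEquiv.mul_apply, pow_succ, AlgEquiv.mul_apply, ih]; rfl
    ext x
    rw [← h3, h1]; rfl
  have hord : orderOf (T ^ 5) = 4 := by
    have h1 : orderOf (T ^ 5) = 2 ^ (1 + 1) := by
      have hprime : Fact (Nat.Prime 2) := ⟨by norm_num⟩
      apply orderOf_eq_prime_pow
      · intro h
        have h2 : ((T ^ 5) ^ 2 ^ 1) (algebraMap N P ζ) = algebraMap N P ζ := by rw [h]; rfl
        rw [← pow_mul, hTNk, DSC_pw ζ τ hτ] at h2
        have h3 := (algebraMap N P).injective h2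
        have h4 : ζ ^ 2 ^ (5 * 2 ^ 1) = ζ ^ 1 := by rw [h3, pow_one]
        rw [(hζ.isOfFinOrder (by norm_num)).pow_eq_pow_iff_modEq, ← hζ.eq_orderOf] at h4
        revert h4; decide
      · rw [← pow_mul, show 5 * 2 ^ (1 + 1) = 4 * 5 from rfl, pow_mul]; exact hT20
    rw [h1]; norm_num
  refine ⟨IntermediateField.fixedField H, IsGalois.of_fixedField_normal_subgroup H, ?_⟩
  have h1 : Module.finrank (IntermediateField.fixedField H) P = 4 := by
    rw [IntermediateField.finrank_fixedField_eq_card, Nat.card_zpowers, hord]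
  have h2 := Module.finrank_mul_finrank K (IntermediateField.fixedField H) P
  have h3 := Module.finrank_mul_finrank K N P
  rw [h4, h5] at h3
  rw [h1, ← h3] at h2
  omega

theorem DSC : DSC_stmt := by
  intro K N M _ _ _ _ _ _ _ _ _ ζ β γ τ α hζ hτ h4 hα h0 hβ hnp
  have hKN : FiniteDimensional K N := FiniteDimensional.left K N M
  have hNM : FiniteDimensional N M := FiniteDimensional.right K N M
  have hirr : Irreducible (Polynomial.X ^ 5 - Polynomial.C β) :=
    X_pow_sub_C_irreducible_of_prime (by norm_num) (fun b hb => hnp ⟨b, hb.symm⟩)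
  have hmin : minpoly N α = Polynomial.X ^ 5 - Polynomial.C β := by
    symm
    apply minpoly.eq_of_irreducible_of_monic hirr
    · rw [map_sub, map_pow, Polynomial.aeval_X, Polynomial.aeval_C, hα, sub_self]
    · exact Polynomial.monic_X_pow_sub_C β (by norm_num)
  have hint : IsIntegral N α := Algebra.IsIntegral.isIntegral α
  have hB5 : Module.finrank N (IntermediateField.adjoin N {α}) = 5 := by
    rw [IntermediateField.adjoin.finrank hint, hmin, Polynomial.natDegree_X_pow_sub_C]
  let P := IntermediateField.adjoin N {α}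
  have hKP : FiniteDimensional K P := Module.Finite.trans N P
  obtain ⟨L', hL1, hL2⟩ := DSC_core K N P ζ β γ τ (IntermediateField.AdjoinSimple.gen N α) (minpoly N α) hmin
    (IntermediateField.adjoinRootEquivAdjoin N hint) (IntermediateField.adjoinRootEquivAdjoin_apply_root N hint)
    hζ hτ h4 (by
      apply Subtype.ext
      show α ^ 5 = _
      rw [hα]; rfl) h0 hβ hB5
  let φ : P →ₐ[K] M := AlgHom.restrictScalars K P.val
  let L : IntermediateField K M := L'.map φ
  let eL : L' ≃ₐ[K] L := L'.equivMap φ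
  have hLr : Module.finrank K L = 5 := by rw [← hL2]; exact eL.toLinearEquiv.finrank_eq.symm
  refine ⟨L, IsGalois.of_algEquiv eL, hLr, ?_⟩
  have hsub : (L : Set M) ⊆ (P : Set M) := by
    rintro _ ⟨x, _, rfl⟩
    exact x.2
  have hle : IntermediateField.adjoin N (L : Set M) ≤ P := IntermediateField.adjoin_le_iff.2 hsub
  have hdvd := IntermediateField.finrank_dvd_of_le_right hle
  rw [show Module.finrank N P = 5 from hB5] at hdvd
  rcases (Nat.dvd_prime (by norm_num)).1 hdvd with h | h
  · exfalso
    have h1 := IntermediateField.finrank_eq_one_iff.1 h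
    have h2 : ∀ x : L, ∃ n : N, algebraMap N M n = x := by
      intro x
      have h3 : (x : M) ∈ IntermediateField.adjoin N (L : Set M) := IntermediateField.subset_adjoin N _ x.2
      rw [h1, IntermediateField.mem_bot] at h3
      exact h3
    choose u hu using h2
    have h3 : Module.finrank K L ≤ Module.finrank K N := by
      let v : L →ₗ[K] N :=
        { toFun := u
          map_add' := fun x y => (algebraMap N M).injective (by rw [map_add, hu, hu, hu]; rfl)
          map_smul' := fun k x => (algebraMap N M).injective (by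
            rw [RingHom.id_apply, Algebra.smul_def k (u x), map_mul, hu, hu, ← IsScalarTower.algebraMap_apply]
            show ((k • x : L) : M) = _
            rw [IntermediateField.coe_smul, Algebra.smul_def]) }
      refine LinearMap.finrank_le_finrank_of_injective (f := v) ?_
      intro x y hxy
      apply Subtype.ext
      rw [← hu x, ← hu y]
      exact congrArg _ hxy
    rw [hLr, h4] at h3
    omega
  · exact IntermediateField.eq_of_le_of_finrank_eq hle (h.trans hB5.symm)

end Pool.Agent.RF
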