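import Pool.Agent.helper13.RF.Spec1

set_option autoImplicit false

open NumberField
open scoped nonZeroDivisors

namespace Pool.Agent.RF

section

variable {A : Type} [CommGroup A] (σ : A →* A)

theorem HQ5_nm (a : A) : nm σ a = a * σ a * σ (σ a) * σ (σ (σ a)) * σ (σ (σ (σ a))) := rfl

theorem HQ5_df (a : A) : df σ a = σ a / a := rfl

theorem HQ5_mem_ker_df {a : A} : a ∈ (df σ).ker ↔ σ a = a := by
  rw [MonoidHom.mem_ker, HQ5_df, div_eq_one]

theorem HQ5_nm_fix {a : A} (h : σ a = a) : nm σ a = a ^ 5 := by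
  rw [HQ5_nm]
  simp only [h]
  rw [pow_succ, pow_succ, pow_succ, pow_succ, pow_one]

theorem HQ5_sig_nm (h5 : ∀ a, σ (σ (σ (σ (σ a)))) = a) (a : A) : σ (nm σ a) = nm σ a := by
  rw [HQ5_nm]
  simp only [map_mul, h5]
  ac_rfl

theorem HQ5_nm_sig (h5 : ∀ a, σ (σ (σ (σ (σ a)))) = a) (a : A) : nm σ (σ a) = nm σ a := by
  rw [HQ5_nm, HQ5_nm, h5]
  ac_rfl

theorem HQ5_nm_df (h5 : ∀ a, σ (σ (σ (σ (σ a)))) = a) (a : A) : nm σ (df σ a) = 1 := by
  rw [HQ5_df, map_div, HQ5_nm_sig σ h5, div_self']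

/-- The restriction of `σ` to the kernel of the norm. -/
def HQ5_res (h5 : ∀ a, σ (σ (σ (σ (σ a)))) = a) : (nm σ).ker →* (nm σ).ker :=
  (σ.comp (nm σ).ker.subtype).codRestrict (nm σ).ker fun z => by
    rw [MonoidHom.mem_ker, MonoidHom.comp_apply, HQ5_nm_sig σ h5]
    exact z.2

theorem HQ5_res_coe (h5 : ∀ a, σ (σ (σ (σ (σ a)))) = a) (z : (nm σ).ker) : ((HQ5_res σ h5 z : (nm σ).ker) : A) = σ z := rfl

end

theorem HQ5 (hCY5 : CY5_stmt) : HQ5_stmt := by
  intro A _ σ h5 htor hidx hF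
  set p5 : A →* A := powMonoidHom 5 with hp5
  have hp5i : Function.Injective p5 := by
    rw [injective_iff_map_eq_one]
    intro a ha
    exact htor a ha
  have hRF : (nm σ).range ≤ (df σ).ker := by
    rintro _ ⟨a, rfl⟩
    rw [HQ5_mem_ker_df]
    exact HQ5_sig_nm σ h5 a
  have hTZ : (df σ).range ≤ (nm σ).ker := by
    rintro _ ⟨a, rfl⟩
    rw [MonoidHom.mem_ker]
    exact HQ5_nm_df σ h5 a
  have hFN : (df σ).ker.map (nm σ) = (df σ).ker.map p5 := by
    ext x
    rw [Subgroup.mem_map, Subgroup.mem_map]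
    constructor
    · rintro ⟨a, ha, rfl⟩
      exact ⟨a, ha, (HQ5_nm_fix σ ((HQ5_mem_ker_df σ).1 ha)).symm⟩
    · rintro ⟨a, ha, rfl⟩
      exact ⟨a, ha, HQ5_nm_fix σ ((HQ5_mem_ker_df σ).1 ha)⟩
  have hF5R : (df σ).ker.map p5 ≤ (nm σ).range := by
    rw [← hFN]
    exact Subgroup.map_le_range _ _
  have e1 : ((df σ).ker.map p5).relIndex (nm σ).range * (nm σ).range.relIndex (df σ).ker = 5 := by
    rw [Subgroup.relIndex_mul_relIndex _ _ _ hF5R hRF]
    exact hF
  have hne : (nm σ).range.relIndex (df σ).ker ≠ 0 := by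
    intro h
    rw [h, mul_zero] at e1
    omega
  have hne' : ((df σ).ker.map p5).relIndex (nm σ).range ≠ 0 := by
    intro h
    rw [h, zero_mul] at e1
    omega
  -- the fifth powers of the range of the norm
  have hR5R : (nm σ).range.map p5 ≤ (nm σ).range := by
    rintro _ ⟨a, ha, rfl⟩
    exact Subgroup.pow_mem _ ha 5
  have hR5F5 : (nm σ).range.map p5 ≤ (df σ).ker.map p5 := Subgroup.map_mono hRF
  have hF5F : (df σ).ker.map p5 ≤ (df σ).ker := hF5R.trans hRF
  have e2 : ((nm σ).range.map p5).relIndex (nm σ).range = 5 := by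
    have h1 := Subgroup.relIndex_mul_relIndex _ _ _ hR5R hRF
    have h2 := Subgroup.relIndex_mul_relIndex _ _ _ hR5F5 hF5F
    rw [Subgroup.relIndex_map_map_of_injective _ _ hp5i, hF] at h2
    have h3 : ((nm σ).range.map p5).relIndex (nm σ).range * (nm σ).range.relIndex (df σ).ker =
        5 * (nm σ).range.relIndex (df σ).ker := by
      rw [h1, ← h2, mul_comm]
    exact Nat.eq_of_mul_eq_mul_right (Nat.pos_of_ne_zero hne) h3
  -- the kernel of the norm
  have e3 : ((nm σ).ker.map p5).relIndex (nm σ).ker = 5 ^ 8 := by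
    have h1 : ((nm σ).range.map p5).comap (nm σ) = (nm σ).ker ⊔ p5.range := by
      ext a
      rw [Subgroup.mem_comap, Subgroup.mem_map, Subgroup.mem_sup]
      constructor
      · rintro ⟨_, ⟨b, rfl⟩, hb⟩
        refine ⟨a / p5 b, ?_, p5 b, ⟨b, rfl⟩, div_mul_cancel _ _⟩
        rw [MonoidHom.mem_ker, map_div, div_eq_one, ← hb]
        change (nm σ b) ^ 5 = nm σ (b ^ 5)
        rw [map_pow]
      · rintro ⟨z, hz, _, ⟨b, rfl⟩, rfl⟩
        refine ⟨nm σ b, ⟨b, rfl⟩, ?_⟩
        rw [map_mul, MonoidHom.mem_ker.1 hz, one_mul]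
        change (nm σ b) ^ 5 = nm σ (b ^ 5)
        rw [map_pow]
    have h2 : ((nm σ).ker ⊔ p5.range).index = 5 := by
      rw [← h1, Subgroup.index_comap]
      exact e2
    have h3 := Subgroup.relIndex_mul_index (H := p5.range) (K := (nm σ).ker ⊔ p5.range) le_sup_right
    rw [h2, hidx, Subgroup.relIndex_sup_right] at h3
    have h4 : p5.range.relIndex (nm σ).ker = ((nm σ).ker.map p5).relIndex (nm σ).ker := by
      rw [← Subgroup.inf_relIndex_right p5.range (nm σ).ker]
      congr 1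
      ext x
      rw [Subgroup.mem_inf, Subgroup.mem_map]
      constructor
      · rintro ⟨⟨a, rfl⟩, ha⟩
        refine ⟨a, ?_, rfl⟩
        rw [MonoidHom.mem_ker] at ha ⊢
        refine htor _ ?_
        rw [← map_pow]
        exact ha
      · rintro ⟨a, ha, rfl⟩
        exact ⟨⟨a, rfl⟩, Subgroup.pow_mem _ ha 5⟩
    rw [h4] at h3
    omega
  -- the module over the ring of cyclotomic integers
  have e4 : ((nm σ).ker.map (df σ)).relIndex (nm σ).ker = 25 := by
    have h1 := hCY5 (nm σ).ker (HQ5_res σ h5) (fun z => Subtype.ext (by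
      rw [HQ5_nm]
      simp only [Subgroup.coe_mul, HQ5_res_coe, Subgroup.coe_one]
      exact MonoidHom.mem_ker.1 z.2)) fun z hz => Subtype.ext (htor _ (by
        rw [← Subgroup.coe_pow, hz, Subgroup.coe_one]))
    have h2 : (df (HQ5_res σ h5)).range = ((nm σ).ker.map (df σ)).subgroupOf (nm σ).ker := by
      ext x
      rw [MonoidHom.mem_range, Subgroup.mem_subgroupOf, Subgroup.mem_map]
      constructor
      · rintro ⟨z, rfl⟩
        exact ⟨z, z.2, rfl⟩
      · rintro ⟨z, hz, hx⟩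
        exact ⟨⟨z, hz⟩, Subtype.ext hx⟩
    have h3 : (powMonoidHom 5 : (nm σ).ker →* (nm σ).ker).range = ((nm σ).ker.map p5).subgroupOf (nm σ).ker := by
      ext x
      rw [MonoidHom.mem_range, Subgroup.mem_subgroupOf, Subgroup.mem_map]
      constructor
      · rintro ⟨z, rfl⟩
        exact ⟨z, z.2, rfl⟩
      · rintro ⟨z, hz, hx⟩
        exact ⟨⟨z, hz⟩, Subtype.ext hx⟩
    rw [h2, h3] at h1
    change (((nm σ).ker.map (df σ)).relIndex (nm σ).ker) ^ 4 = ((nm σ).ker.map p5).relIndex (nm σ).ker at h1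
    rw [e3] at h1
    have h4 : (((nm σ).ker.map (df σ)).relIndex (nm σ).ker) ^ 4 = 25 ^ 4 := by
      rw [h1]
      norm_num
    exact Nat.pow_left_injective (by norm_num : (4 : ℕ) ≠ 0) h4
  have e5 : ((nm σ).ker.map (df σ)).relIndex (df σ).range = ((df σ).ker.map p5).relIndex (nm σ).range := by
    rw [← hFN, ← Subgroup.index_comap, ← Subgroup.index_comap, Subgroup.comap_map_eq, Subgroup.comap_map_eq, sup_comm]
  have e6 := Subgroup.relIndex_mul_relIndex _ _ _ (Subgroup.map_le_range (df σ) (nm σ).ker) hTZ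
  rw [e4, e5] at e6
  refine ⟨?_, hne⟩
  have h7 : ((df σ).ker.map p5).relIndex (nm σ).range * (df σ).range.relIndex (nm σ).ker =
      ((df σ).ker.map p5).relIndex (nm σ).range * (5 * (nm σ).range.relIndex (df σ).ker) := by
    rw [e6, mul_left_comm, e1]
    norm_num
  exact Nat.eq_of_mul_eq_mul_left (Nat.pos_of_ne_zero hne') h7

end Pool.Agent.RF
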