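import Pool.Agent.helper13.RF.Spec1

set_option autoImplicit false

open NumberField
open scoped nonZeroDivisors

namespace Pool.Agent.RF

theorem NCX : NCX_stmt := by
  classical
  intro K L _ _ _ _ _
  have hne : ∀ I : (Ideal (𝓞 L))⁰, Ideal.relNorm (𝓞 K) (I : Ideal (𝓞 L)) ∈ (Ideal (𝓞 K))⁰ := by
    intro I
    rw [mem_nonZeroDivisors_iff_ne_zero]
    intro h
    rw [Ideal.zero_eq_bot, Ideal.relNorm_eq_bot_iff] at h
    exact nonZeroDivisors.coe_ne_zero I h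
  let φ : (Ideal (𝓞 L))⁰ → ClassGroup (𝓞 K) := fun I => ClassGroup.mk0 ⟨_, hne I⟩
  have hφm : ∀ I J : (Ideal (𝓞 L))⁰, φ (I * J) = φ I * φ J := by
    intro I J
    change ClassGroup.mk0 _ = ClassGroup.mk0 _ * ClassGroup.mk0 _
    rw [← map_mul]
    congr 1
    apply Subtype.ext
    change Ideal.relNorm (𝓞 K) ((I * J : (Ideal (𝓞 L))⁰) : Ideal (𝓞 L)) = Ideal.relNorm (𝓞 K) (I : Ideal (𝓞 L)) * Ideal.relNorm (𝓞 K) (J : Ideal (𝓞 L))
    rw [← map_mul]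
    rfl
  have hφ : ∀ I J : (Ideal (𝓞 L))⁰, ClassGroup.mk0 I = ClassGroup.mk0 J → φ I = φ J := by
    intro I J h
    rw [ClassGroup.mk0_eq_mk0_iff] at h
    obtain ⟨x, y, hx, hy, e⟩ := h
    change ClassGroup.mk0 _ = ClassGroup.mk0 _
    rw [ClassGroup.mk0_eq_mk0_iff]
    refine ⟨Algebra.intNorm (𝓞 K) (𝓞 L) x, Algebra.intNorm (𝓞 K) (𝓞 L) y, Algebra.intNorm_ne_zero.2 hx,
      Algebra.intNorm_ne_zero.2 hy, ?_⟩
    change Ideal.span {Algebra.intNorm (𝓞 K) (𝓞 L) x} * Ideal.relNorm (𝓞 K) (I : Ideal (𝓞 L)) =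
      Ideal.span {Algebra.intNorm (𝓞 K) (𝓞 L) y} * Ideal.relNorm (𝓞 K) (J : Ideal (𝓞 L))
    rw [← Ideal.relNorm_singleton, ← Ideal.relNorm_singleton, ← map_mul, ← map_mul, e]
  have hs : ∀ c : ClassGroup (𝓞 L), ClassGroup.mk0 (Function.surjInv ClassGroup.mk0_surjective c) = c :=
    Function.surjInv_eq ClassGroup.mk0_surjective
  refine ⟨MonoidHom.mk' (fun c => φ (Function.surjInv ClassGroup.mk0_surjective c)) fun c c' => ?_, fun I J hJ => ?_⟩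
  · rw [← hφm]
    refine hφ _ _ ?_
    rw [map_mul, hs, hs, hs]
  · change φ _ = _
    rw [hφ _ I (hs _)]
    change ClassGroup.mk0 _ = ClassGroup.mk0 _
    congr 1
    exact Subtype.ext hJ.symm

end Pool.Agent.RF
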