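import Pool.Agent.helper13.RF.Spec1

set_option autoImplicit false

open NumberField
open scoped nonZeroDivisors

namespace Pool.Agent.RF

theorem PIX : PIX_stmt := by
  intro D _ _ R hR h5
  have hRt : R ≠ ⊤ := by
    rintro rfl
    rw [Subgroup.index_top] at hR
    omega
  obtain ⟨H, hH, hRH⟩ := (eq_top_or_exists_le_coatom R).resolve_left hRt
  obtain ⟨d, hd⟩ : ∃ d : D, d ∉ H := by
    by_contra hcon
    push Not at hcon
    exact hH.1 ((Subgroup.eq_top_iff' H).2 hcon)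
  have hsup : H ⊔ Subgroup.zpowers d = ⊤ := by
    refine hH.2 _ (lt_of_le_of_ne le_sup_left fun h => hd ?_)
    rw [h]
    exact Subgroup.mem_sup_right (Subgroup.mem_zpowers d)
  refine ⟨H, hRH, ?_⟩
  have hgen : ∀ x : D ⧸ H, x ∈ Subgroup.zpowers (d : D ⧸ H) := by
    intro x
    obtain ⟨y, rfl⟩ := QuotientGroup.mk_surjective x
    have hy : y ∈ H ⊔ Subgroup.zpowers d := by
      rw [hsup]
      exact Subgroup.mem_top y
    rw [Subgroup.mem_sup] at hy
    obtain ⟨h, hh, _, ⟨k, rfl⟩, rfl⟩ := hy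
    refine ⟨k, ?_⟩
    change (d : D ⧸ H) ^ k = ((h * d ^ k : D) : D ⧸ H)
    rw [QuotientGroup.mk_mul, (QuotientGroup.eq_one_iff h).2 hh, one_mul, QuotientGroup.mk_zpow]
  have hcard : orderOf (d : D ⧸ H) = Nat.card (D ⧸ H) := orderOf_eq_card_of_forall_mem_zpowers hgen
  have hdvd : orderOf (d : D ⧸ H) ∣ 5 := by
    rw [orderOf_dvd_iff_pow_eq_one, ← QuotientGroup.mk_pow, QuotientGroup.eq_one_iff]
    exact hRH (h5 d)
  rw [Subgroup.index, ← hcard]
  rcases (Nat.dvd_prime Nat.prime_five).1 hdvd with h | h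
  · exfalso
    rw [orderOf_eq_one_iff, QuotientGroup.eq_one_iff] at h
    exact hd h
  · exact h

end Pool.Agent.RF
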