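import Pool.Agent.helper60.RF.SpecB
set_option autoImplicit false
open NumberField
namespace Pool.Agent.RF

/-- `z ↦ z.re + z.im (1 + r) / 2` -/
noncomputable def CTB_i {F : Type} [Field F] (r : F) (z : OO) : F := (z.re : F) + (z.im : F) * ((1 + r) / 2)

theorem CTB_mul {F : Type} [Field F] [CharZero F] (r : F) (hr : r ^ 2 = 5) (z z' : OO) :
    CTB_i r (z * z') = CTB_i r z * CTB_i r z' := by
  have h2 : (2 : F) ≠ 0 := two_ne_zero
  unfold CTB_i
  rw [QuadraticAlgebra.re_mul, QuadraticAlgebra.im_mul]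
  push_cast
  field_simp
  linear_combination (-(z.im : F) * z'.im) * hr

theorem CTB_r5 {F : Type} [Field F] [CharZero F] (r : F) : CTB_i r r5 = r := by
  have h2 : (2 : F) ≠ 0 := two_ne_zero
  unfold CTB_i r5
  push_cast
  field_simp
  ring

theorem CTB_int {F : Type} [Field F] (r : F) (D : ℤ) : CTB_i r (D : OO) = D := by
  unfold CTB_i
  simp

theorem CTB (h1 : CTA_stmt) (h2 : CTI_stmt) (h3 : SQO_stmt) : CTB_stmt := by
  intro D F _ _ s r w hD hsq h5 hM x hx
  obtain ⟨hA, hB⟩ := h1 D F s r w hD hM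
  have hI := h2 D F s r w hD hM
  have hr2 := hM.r2
  have hw2 := hM.w2
  have hsr := hM.sr
  have hsw := hM.sw
  have h20 : (2 : F) ≠ 0 := two_ne_zero
  have hr1 : (1 + r) ≠ 0 := by
    intro h
    have h4 : (4 : F) = 0 := by linear_combination (r - 1) * h - hr2
    exact (by norm_num : (4 : F) ≠ 0) h4
  have hr1' : (1 - r) ≠ 0 := by
    intro h
    have h4 : (4 : F) = 0 := by linear_combination (-r - 1) * h - hr2
    exact (by norm_num : (4 : F) ≠ 0) h4
  have hDF : (D : F) ≠ 0 := by exact_mod_cast hD.ne'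
  -- injectivity
  have hinj : ∀ z z' : OO, CTB_i r z = CTB_i r z' → z = z' := by
    intro z z' h
    unfold CTB_i at h
    have h4 := hB ((z.re - z'.re : ℚ) + (z.im - z'.im : ℚ) / 2) ((z.im - z'.im : ℚ) / 2) 0 0 (by
      push_cast
      field_simp at h ⊢
      linear_combination h)
    obtain ⟨h5, h6, -, -⟩ := h4
    have h7 : (z.im : ℚ) = z'.im := by linarith
    have h8 : (z.re : ℚ) = z'.re := by rw [h7] at h5; linarith
    apply QuadraticAlgebra.ext
    · exact_mod_cast h8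
    · exact_mod_cast h7
  obtain ⟨a, b, c, d, hx'⟩ := hA x
  have hr1'' : (1 + -r) ≠ 0 := by rwa [← sub_eq_add_neg]
  have hssw : s (s w) = -w := by
    have h4 : s (s w) = w * (2 / (1 + r)) * (2 / (1 + -r)) := by
      rw [hsw, map_mul, hsw, map_div₀, map_add, map_one, hsr, map_ofNat]
    rw [h4]
    have h5 : (1 + r) * (1 + -r) = -4 := by linear_combination -hr2
    have h6 : w * (2 / (1 + r)) * (2 / (1 + -r)) = w * 4 / ((1 + r) * (1 + -r)) := by
      field_simp; ring
    rw [h6, h5]; ring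
  have hssx : s (s x) = a + b * r - (c + d * r) * w := by
    have h4 : s (s x) = a + b * s (s r) + (c + d * s (s r)) * s (s w) := by
      conv_lhs => rw [hx']
      simp only [map_add, map_mul, map_ratCast]
    rw [h4, hssw, hsr, map_neg, hsr]; ring
  have hsint : IsIntegral ℤ (s (s x)) := by
    have h4 : ∀ y : F, IsIntegral ℤ y → IsIntegral ℤ (s y) := fun y hy => hy.map (s : F →+* F).toIntAlgHom
    exact h4 _ (h4 _ hx)
  have hrint : IsIntegral ℤ r := by
    apply IsIntegral.of_pow (n := 2) (by norm_num)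
    rw [hr2]
    have h4 : (5 : F) = algebraMap ℤ F 5 := by simp
    rw [h4]; exact isIntegral_algebraMap
  have hDint : IsIntegral ℤ (D : F) := by
    exact_mod_cast isIntegral_algebraMap (R := ℤ) (A := F) (x := D)
  -- the unit `φ - 1`
  have hψ : IsIntegral ℤ ((r - 1) / 2) := by
    refine ⟨Polynomial.X ^ 2 + Polynomial.X - 1, by monicity!, ?_⟩
    simp only [Polynomial.eval₂_sub, Polynomial.eval₂_add, Polynomial.eval₂_pow, Polynomial.eval₂_X, Polynomial.eval₂_one]
    field_simp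
    linear_combination hr2
  -- first coordinate
  obtain ⟨a₁, ha₁⟩ := hI (2 * a) (2 * b) (by
    have h4 := hx.add hsint
    rw [hssx, hx'] at h4
    have h5 : (a + b * r + (c + d * r) * w + (a + b * r - (c + d * r) * w) : F) = ((2 * a : ℚ) : F) + ((2 * b : ℚ) : F) * r := by
      push_cast; ring
    rwa [h5] at h4)
  push_cast at ha₁
  -- second coordinate
  set y : F := 2 * (c + d * r) with hy
  have hyw : IsIntegral ℤ (y * w) := by
    have h4 := hx.sub hsint
    rw [hssx, hx'] at h4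
    have h5 : (a + b * r + (c + d * r) * w - (a + b * r - (c + d * r) * w) : F) = y * w := by rw [hy]; ring
    rwa [h5] at h4
  have hm : IsIntegral ℤ (r * D * y ^ 2) := by
    have h4 := ((hyw.pow 2).mul hψ).neg
    have h5 : -((y * w) ^ 2 * ((r - 1) / 2)) = r * D * y ^ 2 := by
      rw [mul_pow, hw2]
      linear_combination (r * y ^ 2 * D / 4) * hr2
    rwa [h5] at h4
  have ht : IsIntegral ℤ (r * D * y) := by
    apply IsIntegral.of_pow (n := 2) (by norm_num)
    have h4 := (hrint.mul hDint).mul hm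
    have h5 : r * D * (r * D * y ^ 2) = (r * D * y) ^ 2 := by ring
    rwa [h5] at h4
  obtain ⟨m₀, hm₀⟩ := hI (40 * c * d * D) ((4 * c ^ 2 + 20 * d ^ 2) * D) (by
    have h5 : r * D * y ^ 2 = ((40 * c * d * D : ℚ) : F) + (((4 * c ^ 2 + 20 * d ^ 2) * D : ℚ) : F) * r := by
      rw [hy]; push_cast
      linear_combination (8 * c * d * D + 4 * d ^ 2 * D * r : F) * hr2
    rwa [h5] at hm)
  obtain ⟨t₀, ht₀⟩ := hI (10 * d * D) (2 * c * D) (by
    have h5 : r * D * y = ((10 * d * D : ℚ) : F) + ((2 * c * D : ℚ) : F) * r := by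
      rw [hy]; push_cast
      linear_combination (2 * d * D : F) * hr2
    rwa [h5] at ht)
  have hm₁ : CTB_i r m₀ = r * D * y ^ 2 := by
    unfold CTB_i
    rw [← hm₀, hy]; push_cast
    linear_combination (-(8 * c * d * D + 4 * d ^ 2 * D * r) : F) * hr2
  have ht₁ : CTB_i r t₀ = r * D * y := by
    unfold CTB_i
    rw [← ht₀, hy]; push_cast
    linear_combination (-(2 * d * D) : F) * hr2
  have hdvd : (D : OO) ∣ t₀ ^ 2 := by
    refine ⟨r5 * m₀, ?_⟩
    apply hinj
    rw [pow_two, CTB_mul r hr2, CTB_mul r hr2, CTB_mul r hr2, CTB_int, CTB_r5, ht₁, hm₁]; ring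
  obtain ⟨t₁, rfl⟩ := h3 D hsq h5 t₀ hdvd
  have ht₂ : CTB_i r t₁ = r * y := by
    rw [CTB_mul r hr2, CTB_int] at ht₁
    apply mul_left_cancel₀ hDF
    rw [ht₁]; ring
  refine ⟨⟨5 * a₁.re, 5 * a₁.im⟩, r5 * t₁, ?_⟩
  have h6 : (((r5 * t₁ : OO).re : F) + ((r5 * t₁ : OO).im : F) * ((1 + r) / 2)) = CTB_i r (r5 * t₁) := rfl
  rw [h6, CTB_mul r hr2, CTB_r5, ht₂]
  push_cast
  rw [hx']
  linear_combination (5 : F) * ha₁ - (y * w) * hr2 - (5 * w) * hy

end Pool.Agent.RF
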