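import Pool.Agent.helper13.RF.SpecU
import Pool.Agent.helper60.RF.POSb

set_option autoImplicit false

namespace Pool.Agent.RF

open NumberField

/-- positivity from the first equation only -/
theorem UPO_core (p : Pt) (e1 : p.X ^ 2 + w2 * (p.D : OO) * (25 * p.k) ^ 2 = p.n ^ 2 * star p.n)
    (k0 : p.k ≠ 0) (D0 : 0 < p.D) : 0 < va p.n ∧ 0 < vb p.n ∧ 0 < p.n.norm ∧ (p.n.norm : ℝ) = va p.n * vb p.n := by
  have hd := NZB_dom
  have hk : (25 * p.k : OO) ≠ 0 := by
    have h25 : (25 : OO) ≠ 0 := by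
      intro h
      have := congrArg QuadraticAlgebra.re h
      rw [QuadraticAlgebra.re_ofNat] at this
      simp at this
    exact mul_ne_zero h25 k0
  obtain ⟨k1, k2⟩ := POSb_ne _ hk
  have hD : (0 : ℝ) < (p.D : ℝ) := by exact_mod_cast D0
  have ea := congrArg va e1
  have eb := congrArg vb e1
  rw [TRV_va_add, TRV_va_pow, TRV_va_mul, TRV_va_mul, TRV_va_int, TRV_va_pow, TRV_va_mul (p.n ^ 2), TRV_va_pow, POSb_star_a] at ea
  rw [TRV_vb_add, TRV_vb_pow, TRV_vb_mul, TRV_vb_mul, TRV_vb_int, TRV_vb_pow, TRV_vb_mul (p.n ^ 2), TRV_vb_pow, POSb_star_b] at eb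
  have wa := TRV_w2a
  have wb := TRV_w2b
  have la : 0 < va p.X ^ 2 + va w2 * (p.D : ℝ) * va (25 * p.k) ^ 2 := by
    have : 0 < va w2 * (p.D : ℝ) * va (25 * p.k) ^ 2 := by positivity
    nlinarith [sq_nonneg (va p.X)]
  have lb : 0 < vb p.X ^ 2 + vb w2 * (p.D : ℝ) * vb (25 * p.k) ^ 2 := by
    have : 0 < vb w2 * (p.D : ℝ) * vb (25 * p.k) ^ 2 := by positivity
    nlinarith [sq_nonneg (vb p.X)]
  rw [ea] at la
  rw [eb] at lb
  have h1 : 0 < vb p.n := by
    by_contra h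
    push Not at h
    nlinarith [sq_nonneg (va p.n)]
  have h2 : 0 < va p.n := by
    by_contra h
    push Not at h
    nlinarith [sq_nonneg (vb p.n)]
  have h3 := TRV_norm p.n
  refine ⟨h2, h1, ?_, h3.symm⟩
  have : (0 : ℝ) < (p.n.norm : ℝ) := by rw [← h3]; positivity
  exact_mod_cast this

theorem UPO : UPO_stmt := fun p hp => UPO_core p hp.e1 hp.k0 hp.D0

end Pool.Agent.RF
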