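import Pool.Agent.helper95.RF.SpecC2
set_option autoImplicit false
namespace Pool.Agent.RF
open Finset NumberField Pool.Agent.helper3.FT

theorem CT0 (h1 : CPX_stmt) : CT0_stmt := by
  intro E B η c hE hB hη hη2 hc
  obtain ⟨N₁, hN₁⟩ := h1 E B η hE hB hη hη2
  have hEr : (1 : ℝ) ≤ E := by exact_mod_cast hE
  have hBr : (1 : ℝ) ≤ B := by exact_mod_cast hB
  obtain ⟨c₂, hc₂⟩ : ∃ c₂ : ℝ, c₂ = c / (1280000 * E ^ 3 * B ^ 2) := ⟨_, rfl⟩
  have hc₂0 : 0 < c₂ := by rw [hc₂]; positivity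
  have hcc : c = c₂ * (1280000 * E ^ 3 * B ^ 2) := by rw [hc₂]; field_simp
  have hev := (isLittleO_log_rpow_atTop (show (0 : ℝ) < η / 75 by positivity)).bound hc₂0
  obtain ⟨N₂, hN₂⟩ := Filter.eventually_atTop.1 hev
  refine ⟨max (max N₁ N₂) (max 2 ((B : ℝ) ^ 2)), ?_⟩
  intro N hN Q L V z₀ S T hRg hPar hKF hcard
  have hN1 : N₁ ≤ N := le_trans (le_trans (le_max_left _ _) (le_max_left _ _)) hN
  have hN2 : N₂ ≤ N := le_trans (le_trans (le_max_right _ _) (le_max_left _ _)) hN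
  have h2N : 2 ≤ N := le_trans (le_trans (le_max_left _ _) (le_max_right _ _)) hN
  have hNB : (B : ℝ) ^ 2 ≤ N := le_trans (le_trans (le_max_right _ _) (le_max_right _ _)) hN
  have hN0 : 0 < N := by linarith
  obtain ⟨-, hsz⟩ := hN₁ N hN1 Q hRg
  obtain ⟨hS, -, -, -, -, -, -, -⟩ := hsz L V z₀ S hPar
  set W : ℝ := N ^ (η / 75) with hW
  have hW0 : 0 < W := Real.rpow_pos_of_pos hN0 _
  have hlog : Real.log N ≤ c₂ * W := by
    have h := hN₂ N hN2
    rw [Real.norm_of_nonneg (Real.log_nonneg (by linarith)), Real.norm_of_nonneg hW0.le] at h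
    exact h
  set X : ℝ := N ^ (1 / 2 - η) with hX
  have hX0 : 0 < X := Real.rpow_pos_of_pos hN0 _
  set Y : ℝ := N ^ (1 - 4 / 3 * η) with hY
  have hY0 : 0 < Y := Real.rpow_pos_of_pos hN0 _
  have hX1 : 1 < X := Real.one_lt_rpow (by linarith) (by linarith)
  have hQ1 : 1 < (Q : ℝ) := lt_of_lt_of_le hX1 hRg.q1
  have hQ0 : 0 < (Q : ℝ) := by linarith
  have hXs : X ≤ √N := by
    rw [Real.sqrt_eq_rpow]
    exact Real.rpow_le_rpow_of_exponent_le (by linarith) (by linarith)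
  have hQN : (Q : ℝ) ≤ N := by
    have hBs : (B : ℝ) ≤ √N := Real.le_sqrt_of_sq_le hNB
    calc (Q : ℝ) ≤ B * X := hRg.q2
      _ ≤ √N * √N := mul_le_mul hBs hXs hX0.le (Real.sqrt_nonneg _)
      _ = N := Real.mul_self_sqrt hN0.le
  have hlQ : 0 < Real.log Q := Real.log_pos hQ1
  have hlQN : Real.log Q ≤ c₂ * W := le_trans (Real.log_le_log hQ0 hQN) hlog
  have hT : T.card * ((L : ℝ) ^ 2 * V / (8 * (Q : ℝ) ^ 3)) ≤ T0 T L V := by
    unfold T0
    rw [← nsmul_eq_mul]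
    apply Finset.card_nsmul_le_sum
    intro k hk
    have hk' := (hKF.kk k hk)
    have hq0 : (0 : ℝ) < k.norm.natAbs := by exact_mod_cast hk'.pr.pos
    have hq : (k.norm.natAbs : ℝ) ≤ 2 * Q := by exact_mod_cast hk'.hi
    apply div_le_div_of_nonneg_left (by positivity) (by positivity)
    calc (k.norm.natAbs : ℝ) ^ 3 ≤ (2 * Q) ^ 3 := pow_le_pow_left₀ hq0.le hq 3
      _ = 8 * (Q : ℝ) ^ 3 := by ring
  have hS0 := hPar.S0
  have hL2 : S / (40000 * E ^ 2) ≤ (L : ℝ) ^ 2 := by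
    rw [div_le_iff₀ (by positivity)]
    calc S = √S ^ 2 := (Real.sq_sqrt hS0.le).symm
      _ ≤ (200 * E * L) ^ 2 := pow_le_pow_left₀ (Real.sqrt_nonneg _) hPar.L2 2
      _ = _ := by ring
  have hV2 : S / (4 * E) ≤ V := by
    rw [div_le_iff₀ (by positivity)]
    calc S ≤ 4 * E * V := hPar.V2
      _ = _ := by ring
  have hLV : S ^ 2 / (160000 * E ^ 3) ≤ (L : ℝ) ^ 2 * V := by
    calc S ^ 2 / (160000 * E ^ 3) = S / (40000 * E ^ 2) * (S / (4 * E)) := by field_simp; norm_num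
      _ ≤ _ := mul_le_mul hL2 hV2 (by positivity) (by positivity)
  have hTc : c * Q / (c₂ * W) ≤ (T.card : ℝ) :=
    le_trans (div_le_div_of_nonneg_left (by positivity) hlQ hlQN) hcard
  have hexp : N ^ (1 - 17 / 25 * η) * (X ^ 2 * W) = Y ^ 2 := by
    rw [hX, hW, hY, ← Real.rpow_natCast, ← Real.rpow_natCast, ← Real.rpow_mul hN0.le, ← Real.rpow_mul hN0.le,
      ← Real.rpow_add hN0, ← Real.rpow_add hN0]
    congr 1
    push_cast
    ring
  have hQX : (Q : ℝ) ^ 2 ≤ B ^ 2 * X ^ 2 := by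
    rw [← mul_pow]; exact pow_le_pow_left₀ hQ0.le hRg.q2 2
  calc N ^ (1 - 17 / 25 * η) = Y ^ 2 / (X ^ 2 * W) := by rw [eq_div_iff (by positivity)]; exact hexp
    _ ≤ S ^ 2 / (X ^ 2 * W) := by
        apply div_le_div_of_nonneg_right (pow_le_pow_left₀ hY0.le hS 2) (by positivity)
    _ = B ^ 2 * S ^ 2 / (B ^ 2 * X ^ 2 * W) := by field_simp
    _ ≤ B ^ 2 * S ^ 2 / (Q ^ 2 * W) := by
        apply div_le_div_of_nonneg_left (by positivity) (by positivity)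
        exact mul_le_mul_of_nonneg_right hQX hW0.le
    _ = c * Q / (c₂ * W) * (S ^ 2 / (160000 * E ^ 3) / (8 * (Q : ℝ) ^ 3)) := by
        rw [hcc]; field_simp; norm_num
    _ ≤ T.card * ((L : ℝ) ^ 2 * V / (8 * (Q : ℝ) ^ 3)) := by
        apply mul_le_mul hTc _ (by positivity) (Nat.cast_nonneg _)
        exact div_le_div_of_nonneg_right hLV (by positivity)
    _ ≤ _ := hT

end Pool.Agent.RF
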